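import Pool.Agent.W921.RF.Defs

/-!
# RF-TPC: the first two conditions are decidable
-/

set_option autoImplicit false

namespace Pool.Agent.W803.RF.Tpc

open Pool.Agent.W921.RF

/-- one step of the scan: position, number of positive and negative letters at `m` -/
def stp (m : ℕ) (s : ℕ × ℕ × ℕ) (l : Lt) : ℕ × ℕ × ℕ :=
  if l.1 = 0 then ((if l.2 = true then s.1 + 1 else s.1 - 1), s.2) else
    if s.1 = m then (s.1, if l.2 = true then (s.2.1 + 1, s.2.2) else (s.2.1, s.2.2 + 1)) else s

/-- the scan -/
def scan (m : ℕ) (w : List Lt) (s : ℕ × ℕ × ℕ) : ℕ × ℕ × ℕ := w.foldl (fun s l => stp m s l) s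

theorem primrec_stp : Primrec₂ fun (m : ℕ × List Lt) (x : (ℕ × ℕ × ℕ) × Lt) =>
    stp m.1 x.1 x.2 := by
  have hl : Primrec fun q : (ℕ × List Lt) × (ℕ × ℕ × ℕ) × Lt => q.2.2 :=
    Primrec.snd.comp Primrec.snd
  have hs : Primrec fun q : (ℕ × List Lt) × (ℕ × ℕ × ℕ) × Lt => q.2.1 :=
    Primrec.fst.comp Primrec.snd
  have hm : Primrec fun q : (ℕ × List Lt) × (ℕ × ℕ × ℕ) × Lt => q.1.1 :=
    Primrec.fst.comp Primrec.fst
  have hs1 : Primrec fun q : (ℕ × List Lt) × (ℕ × ℕ × ℕ) × Lt => q.2.1.1 := Primrec.fst.comp hs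
  have hs2 : Primrec fun q : (ℕ × List Lt) × (ℕ × ℕ × ℕ) × Lt => q.2.1.2 := Primrec.snd.comp hs
  have hb : PrimrecPred fun q : (ℕ × List Lt) × (ℕ × ℕ × ℕ) × Lt => q.2.2.2 = true :=
    Primrec.eq.comp (Primrec.snd.comp hl) (Primrec.const true)
  refine Primrec.ite (Primrec.eq.comp (Primrec.fst.comp hl) (Primrec.const 0)) ?_ ?_
  · exact Primrec.pair (Primrec.ite hb (Primrec.succ.comp hs1) (Primrec.pred.comp hs1)) hs2
  · refine Primrec.ite (Primrec.eq.comp hs1 hm) ?_ hs
    refine Primrec.pair hs1 (Primrec.ite hb ?_ ?_)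
    · exact Primrec.pair (Primrec.succ.comp (Primrec.fst.comp hs2)) (Primrec.snd.comp hs2)
    · exact Primrec.pair (Primrec.fst.comp hs2) (Primrec.succ.comp (Primrec.snd.comp hs2))

theorem primrec_scan : Primrec fun q : ℕ × List Lt => scan q.1 q.2 (q.2.length, 0, 0) := by
  refine Primrec.list_foldl (h := fun (m : ℕ × List Lt) (x : (ℕ × ℕ × ℕ) × Lt) =>
    stp m.1 x.1 x.2) Primrec.snd ?_ primrec_stp
  exact Primrec.pair (Primrec.list_length.comp Primrec.snd)
    (Primrec.pair (Primrec.const 0) (Primrec.const 0))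

theorem tot_cons (l : Lt) (w : List Lt) :
    tot (l :: w) = (if l.1 = 0 then sg l.2 else 0) + tot w := by
  simp [tot]

theorem Pf_cons (o : ℤ × ℤ) (l : List (ℤ × ℤ)) (i : ℤ) :
    Pf (o :: l) i = (if o.1 = i then o.2 else 0) + Pf l i := by
  simp [Pf]

theorem scan_cons (m : ℕ) (l : Lt) (w : List Lt) (s : ℕ × ℕ × ℕ) :
    scan m (l :: w) s = scan m w (stp m s l) := rfl

theorem scan_spec (m : ℕ) (c : ℤ) (w : List Lt) : ∀ (k : ℤ) (K a b : ℕ), (K : ℤ) = k + c →
    w.length ≤ K → ((scan m w (K, a, b)).1 : ℤ) = K + tot w ∧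
      ((scan m w (K, a, b)).2.1 : ℤ) - ((scan m w (K, a, b)).2.2 : ℤ) =
        a - b + Pf (occ k w) (m - c) := by
  induction w with
  | nil =>
    intro k K a b _ _
    simp [scan, tot, occ, Pf]
  | cons l w ih =>
    intro k K a b hK hl
    rw [List.length_cons] at hl
    rw [scan_cons, tot_cons]
    by_cases h0 : l.1 = 0
    · by_cases hb : l.2 = true
      · have e : stp m (K, a, b) l = (K + 1, a, b) := by simp [stp, h0, hb]
        rw [e, if_pos h0]
        have hs : sg l.2 = 1 := by simp [sg, hb]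
        obtain ⟨i1, i2⟩ := ih (k + 1) (K + 1) a b (by push_cast; omega) (by omega)
        rw [i1, i2, occ, if_pos h0, hs]
        refine ⟨by push_cast; ring, rfl⟩
      · have e : stp m (K, a, b) l = (K - 1, a, b) := by simp [stp, h0, hb]
        rw [e, if_pos h0]
        have hs : sg l.2 = -1 := by simp [sg, hb]
        obtain ⟨i1, i2⟩ := ih (k + -1) (K - 1) a b (by omega) (by omega)
        rw [i1, i2, occ, if_pos h0, hs]
        refine ⟨by omega, rfl⟩
    · rw [if_neg h0, zero_add, occ, if_neg h0, Pf_cons]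
      by_cases hm : K = m
      · have hkm : k = (m : ℤ) - c := by omega
        by_cases hb : l.2 = true
        · have e : stp m (K, a, b) l = (K, a + 1, b) := by simp [stp, h0, hb, hm]
          have hs : sg l.2 = 1 := by simp [sg, hb]
          obtain ⟨i1, i2⟩ := ih k K (a + 1) b hK (by omega)
          rw [e, i1, i2, if_pos hkm, hs]
          refine ⟨rfl, by push_cast; ring⟩
        · have e : stp m (K, a, b) l = (K, a, b + 1) := by simp [stp, h0, hb, hm]
          have hs : sg l.2 = -1 := by simp [sg, hb]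
          obtain ⟨i1, i2⟩ := ih k K a (b + 1) hK (by omega)
          rw [e, i1, i2, if_pos hkm, hs]
          refine ⟨rfl, by push_cast; ring⟩
      · have hkm : ¬ k = (m : ℤ) - c := by omega
        have e : stp m (K, a, b) l = (K, a, b) := by simp [stp, h0, hm]
        obtain ⟨i1, i2⟩ := ih k K a b hK (by omega)
        rw [e, i1, i2, if_neg hkm, zero_add]
        exact ⟨rfl, rfl⟩

theorem Pf_far (w : List Lt) : ∀ (k i : ℤ), (w.length : ℤ) < |i - k| → Pf (occ k w) i = 0 := by
  induction w with
  | nil => intro k i _; simp [occ, Pf]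
  | cons l w ih =>
    intro k i h
    rw [List.length_cons] at h
    push_cast at h
    rw [occ]
    by_cases h0 : l.1 = 0
    · rw [if_pos h0]
      refine ih _ _ ?_
      have h1 : |i - k| ≤ |i - (k + sg l.2)| + |sg l.2| := by
        have := abs_add_le (i - (k + sg l.2)) (sg l.2)
        rwa [show i - (k + sg l.2) + sg l.2 = i - k by ring] at this
      have h2 : |sg l.2| = 1 := by
        unfold sg; split_ifs <;> simp
      omega
    · rw [if_neg h0, Pf_cons, ih k i (by omega), add_zero]
      have hki : ¬ k = i := by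
        rintro rfl
        simp at h
        omega
      exact if_neg hki

theorem iff_scan (w : List Lt) : (tot w = 0 ∧ ∀ i, Pf (occ 0 w) i = 0) ↔
    (scan 0 w (w.length, 0, 0)).1 = w.length ∧
      ∀ m < 2 * w.length + 1, (scan m w (w.length, 0, 0)).2.1 = (scan m w (w.length, 0, 0)).2.2 := by
  have hs := fun m : ℕ => scan_spec m w.length w 0 w.length 0 0 (by simp) le_rfl
  constructor
  · rintro ⟨h1, h2⟩
    refine ⟨?_, fun m _ => ?_⟩
    · have := (hs 0).1
      rw [h1] at this
      omega
    · have := (hs m).2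
      rw [h2] at this
      omega
  · rintro ⟨h1, h2⟩
    refine ⟨?_, fun i => ?_⟩
    · have := (hs 0).1
      rw [h1] at this
      omega
    · by_cases hi : (w.length : ℤ) < |i - 0|
      · exact Pf_far w 0 i hi
      · rw [sub_zero, not_lt, abs_le] at hi
        obtain ⟨m, hm⟩ : ∃ m : ℕ, (m : ℤ) = i + w.length := ⟨(i + w.length).toNat, by omega⟩
        have h3 := (hs m).2
        rw [h2 m (by omega), show (m : ℤ) - w.length = i by omega] at h3
        omega

theorem task : S_TPC := by
  have hrel : PrimrecRel fun (m : ℕ) (w : List Lt) =>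
      (scan m w (w.length, 0, 0)).2.1 = (scan m w (w.length, 0, 0)).2.2 := by
    refine Primrec.eq.comp ?_ ?_
    · exact Primrec.fst.comp (Primrec.snd.comp primrec_scan)
    · exact Primrec.snd.comp (Primrec.snd.comp primrec_scan)
  have hall : PrimrecPred fun w : List Lt => ∀ m < 2 * w.length + 1,
      (scan m w (w.length, 0, 0)).2.1 = (scan m w (w.length, 0, 0)).2.2 := by
    have h := hrel.forall_mem_list
    have h2 := h.comp (Primrec.list_range.comp (Primrec.succ.comp
      (Primrec.nat_mul.comp (Primrec.const 2) Primrec.list_length)))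
      (Primrec.id (α := List Lt))
    exact h2.of_eq fun w => by simp [List.mem_range]
  have h0 : PrimrecPred fun w : List Lt => (scan 0 w (w.length, 0, 0)).1 = w.length := by
    refine Primrec.eq.comp ?_ Primrec.list_length
    exact Primrec.fst.comp (primrec_scan.comp (Primrec.pair (Primrec.const 0) Primrec.id))
  have h := (h0.and hall).computablePred
  exact h.of_eq fun w => (iff_scan w).symm

end Pool.Agent.W803.RF.Tpc
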