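import Pool.Agent.W921.RF.Defs
import Pool.Agent.Helper578.JD.RE

/-!
# RF-WPR: the word problem is co-c.e.
-/

set_option autoImplicit false

namespace Pool.Agent.W803.RF.Wpr

open Pool.Agent.W921.RF

theorem primrec_pow4 : Primrec fun n : ℕ => 4 ^ n := by
  have h : Primrec fun n : ℕ => (Nat.rec (motive := fun _ => ℕ) 1 (fun _ y => 4 * y) n : ℕ) := by
    refine Primrec.nat_rec' (g := fun _ : ℕ => 1) (h := fun _ (p : ℕ × ℕ) => 4 * p.2)
      Primrec.id (Primrec.const 1) ?_
    exact Primrec.nat_mul.comp (Primrec.const 4) (Primrec.snd.comp Primrec.snd)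
  refine h.of_eq fun n => ?_
  induction n with
  | zero => rfl
  | succ n ih =>
    show 4 * _ = 4 ^ (n + 1)
    rw [ih, pow_succ, mul_comm]

theorem primrec_ai : Primrec ai := by
  have h := primrec_pow4.comp (Primrec.nat_add.comp
    (Primrec.nat_mul.comp (Primrec.const 2) Primrec.id) (Primrec.const 1))
  exact h.of_eq fun e => rfl

theorem primrec_bi : Primrec bi := by
  have h := primrec_pow4.comp (Primrec.nat_add.comp
    (Primrec.nat_mul.comp (Primrec.const 2) Primrec.id) (Primrec.const 2))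
  exact h.of_eq fun e => rfl

theorem lt_ai (e : ℕ) : e < ai e := by
  unfold ai
  have h1 : 2 * e + 1 < 4 ^ (2 * e + 1) := Nat.lt_pow_self (by norm_num)
  omega

theorem lt_bi (e : ℕ) : e < bi e := by
  unfold bi
  have h1 : 2 * e + 2 < 4 ^ (2 * e + 2) := Nat.lt_pow_self (by norm_num)
  omega

theorem rho_zero (κ : ℕ → ℕ) : rho κ 0 = 0 := by simp [rho]

/-- the first stage -/
def IsK (e s : ℕ) : Prop := Found e s ∧ ∀ s' < s, ¬ Found e s'

open Classical in
theorem kap_eq_succ (e s : ℕ) : kap e = s + 1 ↔ IsK e s := by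
  unfold kap IsK
  constructor
  · intro h
    by_cases hh : ∃ s, Found e s
    · rw [dif_pos hh] at h
      have h' : Nat.find hh = s := by omega
      rw [← h']
      exact ⟨Nat.find_spec hh, fun s' hs' => Nat.find_min hh hs'⟩
    · rw [dif_neg hh] at h
      omega
  · rintro ⟨h1, h2⟩
    have hh : ∃ s, Found e s := ⟨s, h1⟩
    rw [dif_pos hh]
    have : Nat.find hh = s := (Nat.find_eq_iff hh).2 ⟨h1, h2⟩
    omega

open Classical in
theorem kap_ne_zero (e : ℕ) : kap e ≠ 0 ↔ ∃ s, Found e s := by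
  unfold kap
  constructor
  · intro h
    by_contra hh
    rw [dif_neg hh] at h
    exact h rfl
  · intro hh
    rw [dif_pos hh]
    omega

/-- the clause with number `e` -/
theorem clause_iff (e : ℕ) (c c' : ℤ) (P N P' N' : ℕ) (hc : c = (P : ℤ) - N)
    (hc' : c' = (P' : ℤ) - N') :
    ((kap e = 0 ∧ c ≠ 0) ∨ (kap e ≠ 0 ∧ (kap e : ℤ) * c + c' ≠ 0)) ↔
      ((P ≠ N ∧ ∀ s < P' + N', (¬ Found e s ∨ (∃ s', s' < s ∧ Found e s')) ∨
          (s + 1) * P + P' ≠ (s + 1) * N + N') ∨
        (P = N ∧ P' ≠ N' ∧ ∃ s, Found e s)) := by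
  have key : ∀ s : ℕ, (((s + 1 : ℕ) : ℤ) * c + c' = 0 ↔ (s + 1) * P + P' = (s + 1) * N + N') := by
    intro s
    subst hc hc'
    constructor
    · intro h
      zify
      push_cast at h
      linarith
    · intro h
      zify at h
      push_cast
      linarith
  by_cases hPN : P = N
  · have hc0 : c = 0 := by omega
    constructor
    · rintro (⟨_, h⟩ | ⟨h1, h2⟩)
      · exact absurd hc0 h
      · right
        refine ⟨hPN, ?_, (kap_ne_zero e).1 h1⟩
        rintro rfl
        apply h2
        rw [hc0, hc']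
        simp
    · rintro (⟨h, _⟩ | ⟨_, h2, h3⟩)
      · exact absurd hPN h
      · right
        refine ⟨(kap_ne_zero e).2 h3, ?_⟩
        rw [hc0, hc', mul_zero, zero_add]
        omega
  · have hc0 : c ≠ 0 := by omega
    constructor
    · intro h
      left
      refine ⟨hPN, fun s _ => ?_⟩
      by_contra hcon
      push Not at hcon
      obtain ⟨⟨h1, h2⟩, h3⟩ := hcon
      have hk : kap e = s + 1 := (kap_eq_succ e s).2 ⟨h1, h2⟩
      rcases h with ⟨h, _⟩ | ⟨_, h⟩
      · omega
      · rw [hk] at h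
        exact h ((key s).2 h3)
    · rintro (⟨_, h⟩ | ⟨h, _⟩)
      · by_cases hk0 : kap e = 0
        · exact Or.inl ⟨hk0, hc0⟩
        · right
          refine ⟨hk0, fun h0 => ?_⟩
          obtain ⟨s, hs⟩ := Nat.exists_eq_succ_of_ne_zero hk0
          have hK := (kap_eq_succ e s).1 hs
          rw [hs] at h0
          have h4 := (key s).1 h0
          -- bound on s
          have hsb : s < P' + N' := by
            have h5 : (((s + 1 : ℕ) : ℤ)) * |c| = |c'| := by
              have h6 : c' = -(((s + 1 : ℕ) : ℤ) * c) := by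
                have : ((s.succ : ℕ) : ℤ) = ((s + 1 : ℕ) : ℤ) := rfl
                rw [this] at h0
                linarith
              rw [h6, abs_neg, abs_mul]
              congr 1
            have h7 : 1 ≤ |c| := Int.one_le_abs hc0
            have h8 : |c'| ≤ (P' : ℤ) + N' := by
              rw [hc', abs_le]
              constructor <;> omega
            have h9 : ((s + 1 : ℕ) : ℤ) ≤ P' + N' := by
              nlinarith
            omega
          rcases h s hsb with (h5 | ⟨s', hs', h5⟩) | h5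
          · exact h5 hK.1
          · exact hK.2 s' hs' h5
          · exact h5 h4
      · exact absurd h hPN

theorem task (h1 : S_TRI) (h2 : S_COO) (h3 : S_FOU) (h4 : S_CFC) (h5 : S_TPC) : S_WPR := by
  obtain ⟨P, N, hP, hN, hPN⟩ := h4
  have hiff : ∀ w : List Lt, rep (1 : ℤ) (rho kap) (FreeGroup.mk w) ≠ 1 ↔
      ((¬ (tot w = 0 ∧ ∀ i, Pf (occ 0 w) i = 0)) ∨
        (∃ d : ℕ, ((0 < d ∧ P w d ≠ N w d) ∧ ((∀ e < d + 1, d ≠ ai e) ∧ ∀ e < d + 1, d ≠ bi e)))) ∨
        ∃ e : ℕ, ((P w (ai e) ≠ N w (ai e) ∧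
            ∀ s < P w (bi e) + N w (bi e), (¬ Found e s ∨ (∃ s', s' < s ∧ Found e s')) ∨
              (s + 1) * P w (ai e) + P w (bi e) ≠ (s + 1) * N w (ai e) + N w (bi e)) ∨
          (P w (ai e) = N w (ai e) ∧ P w (bi e) ≠ N w (bi e) ∧ ∃ s, Found e s)) := by
    intro w
    have hpos : ∀ e, 0 < ai e := fun e => lt_of_le_of_lt (Nat.zero_le _) (lt_ai e)
    have hpos' : ∀ e, 0 < bi e := fun e => lt_of_le_of_lt (Nat.zero_le _) (lt_bi e)
    have e1 : rep (1 : ℤ) (rho kap) (FreeGroup.mk w) ≠ 1 ↔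
        (¬ (tot w = 0 ∧ ∀ i, Pf (occ 0 w) i = 0)) ∨ Zf (rho kap) (occ 0 w) ≠ 0 := by
      constructor
      · intro h
        by_contra hcon
        push Not at hcon
        obtain ⟨⟨a1, a2⟩, a3⟩ := hcon
        apply h
        refine h1.2 ℤ (ℕ →₀ ℤ) 1 (rho kap) (rho_zero kap) w a1 a2 ?_
        have : (fun i : ℤ => rho kap (i • (1 : ℤ))) = rho kap := by
          funext i
          rw [smul_eq_mul, mul_one]
        rw [this]
        exact a3
      · intro h hr
        obtain ⟨a1, a2, a3⟩ := h1.1 (rho kap) (rho_zero kap) w hr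
        rcases h with h | h
        · exact h ⟨a1, a2⟩
        · exact h a3
    have e2 : (∃ d : ℕ, 0 < d ∧ (∀ e, d ≠ ai e) ∧ (∀ e, d ≠ bi e) ∧ cf (occ 0 w) d ≠ 0) ↔
        (∃ d : ℕ, ((0 < d ∧ P w d ≠ N w d) ∧
          ((∀ e < d + 1, d ≠ ai e) ∧ ∀ e < d + 1, d ≠ bi e))) := by
      constructor
      · rintro ⟨d, a1, a2, a3, a4⟩
        refine ⟨d, ⟨a1, ?_⟩, fun e _ => a2 e, fun e _ => a3 e⟩
        rw [hPN w d a1] at a4
        omega
      · rintro ⟨d, ⟨a1, a4⟩, a2, a3⟩
        refine ⟨d, a1, fun e he => ?_, fun e he => ?_, ?_⟩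
        · exact a2 e (by have := lt_ai e; omega) he
        · exact a3 e (by have := lt_bi e; omega) he
        · rw [hPN w d a1]
          omega
    have e3 : (∃ e, (kap e = 0 ∧ cf (occ 0 w) (ai e) ≠ 0) ∨
        (kap e ≠ 0 ∧ (kap e : ℤ) * cf (occ 0 w) (ai e) + cf (occ 0 w) (bi e) ≠ 0)) ↔
        ∃ e : ℕ, ((P w (ai e) ≠ N w (ai e) ∧
            ∀ s < P w (bi e) + N w (bi e), (¬ Found e s ∨ (∃ s', s' < s ∧ Found e s')) ∨
              (s + 1) * P w (ai e) + P w (bi e) ≠ (s + 1) * N w (ai e) + N w (bi e)) ∨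
          (P w (ai e) = N w (ai e) ∧ P w (bi e) ≠ N w (bi e) ∧ ∃ s, Found e s)) :=
      exists_congr fun e => clause_iff e _ _ _ _ _ _ (hPN w (ai e) (hpos e))
        (hPN w (bi e) (hpos' e))
    rw [e1, (h2 kap (occ 0 w)).2.2, e2, e3]
    exact or_assoc.symm
  refine REPred.of_eq ?_ fun w => (hiff w).symm
  -- computability
  have cai : Computable ai := primrec_ai.to_comp
  have cbi : Computable bi := primrec_bi.to_comp
  have hPc : ∀ {α : Type} [Primcodable α] {f : α → List Lt} {g : α → ℕ}, Computable f →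
      Computable g → Computable fun a => P (f a) (g a) := by
    intro α _ f g hf hg
    exact hP.comp (hf.pair hg)
  have hNc : ∀ {α : Type} [Primcodable α] {f : α → List Lt} {g : α → ℕ}, Computable f →
      Computable g → Computable fun a => N (f a) (g a) := by
    intro α _ f g hf hg
    exact hN.comp (hf.pair hg)
  refine Pool.Agent.Helper578.JD.RE.or (Pool.Agent.Helper578.JD.RE.or ?_ ?_) ?_
  · exact h5.not.to_re
  · refine Pool.Agent.Helper578.JD.RE.exN (p := fun w d => ((0 < d ∧ P w d ≠ N w d) ∧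
      ((∀ e < d + 1, d ≠ ai e) ∧ ∀ e < d + 1, d ≠ bi e))) ?_
    refine Pool.Agent.Helper578.JD.RE.and (Pool.Agent.Helper578.JD.RE.and ?_ ?_)
      (Pool.Agent.Helper578.JD.RE.and ?_ ?_)
    · exact Pool.Agent.Helper578.JD.RE.lt (Computable.const 0) Computable.snd
    · exact Pool.Agent.Helper578.JD.RE.ne (hPc Computable.fst Computable.snd)
        (hNc Computable.fst Computable.snd)
    · refine Pool.Agent.Helper578.JD.RE.all_lt (p := fun (x : List Lt × ℕ) e => x.2 ≠ ai e)
        ?_ (Computable.succ.comp Computable.snd)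
      exact Pool.Agent.Helper578.JD.RE.ne (Computable.snd.comp Computable.fst)
        (cai.comp Computable.snd)
    · refine Pool.Agent.Helper578.JD.RE.all_lt (p := fun (x : List Lt × ℕ) e => x.2 ≠ bi e)
        ?_ (Computable.succ.comp Computable.snd)
      exact Pool.Agent.Helper578.JD.RE.ne (Computable.snd.comp Computable.fst)
        (cbi.comp Computable.snd)
  · refine Pool.Agent.Helper578.JD.RE.exN (p := fun w e => ((P w (ai e) ≠ N w (ai e) ∧
            ∀ s < P w (bi e) + N w (bi e), (¬ Found e s ∨ (∃ s', s' < s ∧ Found e s')) ∨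
              (s + 1) * P w (ai e) + P w (bi e) ≠ (s + 1) * N w (ai e) + N w (bi e)) ∨
          (P w (ai e) = N w (ai e) ∧ P w (bi e) ≠ N w (bi e) ∧ ∃ s, Found e s))) ?_
    have cA : Computable fun x : List Lt × ℕ => P x.1 (ai x.2) :=
      hPc Computable.fst (cai.comp Computable.snd)
    have cB : Computable fun x : List Lt × ℕ => N x.1 (ai x.2) :=
      hNc Computable.fst (cai.comp Computable.snd)
    have cA' : Computable fun x : List Lt × ℕ => P x.1 (bi x.2) :=
      hPc Computable.fst (cbi.comp Computable.snd)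
    have cB' : Computable fun x : List Lt × ℕ => N x.1 (bi x.2) :=
      hNc Computable.fst (cbi.comp Computable.snd)
    have cadd : Computable₂ fun a b : ℕ => a + b := Primrec.nat_add.to_comp
    have cmul : Computable₂ fun a b : ℕ => a * b := Primrec.nat_mul.to_comp
    refine Pool.Agent.Helper578.JD.RE.or (Pool.Agent.Helper578.JD.RE.and
      (Pool.Agent.Helper578.JD.RE.ne cA cB) ?_) (Pool.Agent.Helper578.JD.RE.and
      (Pool.Agent.Helper578.JD.RE.eq cA cB) (Pool.Agent.Helper578.JD.RE.and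
      (Pool.Agent.Helper578.JD.RE.ne cA' cB') ?_))
    · refine Pool.Agent.Helper578.JD.RE.all_lt (p := fun (x : List Lt × ℕ) s =>
        (¬ Found x.2 s ∨ (∃ s', s' < s ∧ Found x.2 s')) ∨
              (s + 1) * P x.1 (ai x.2) + P x.1 (bi x.2) ≠
                (s + 1) * N x.1 (ai x.2) + N x.1 (bi x.2)) ?_
        (f := fun x => P x.1 (bi x.2) + N x.1 (bi x.2)) (cadd.comp cA' cB')
      refine Pool.Agent.Helper578.JD.RE.or (Pool.Agent.Helper578.JD.RE.or ?_ ?_) ?_
      · exact Pool.Agent.Helper578.JD.RE.comp (p := fun q : ℕ × ℕ => ¬ Found q.1 q.2)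
          h3.not.to_re (f := fun x : (List Lt × ℕ) × ℕ => (x.1.2, x.2))
          ((Computable.snd.comp Computable.fst).pair Computable.snd)
      · refine Pool.Agent.Helper578.JD.RE.exN (p := fun (x : (List Lt × ℕ) × ℕ) s' =>
          s' < x.2 ∧ Found x.1.2 s') ?_
        refine Pool.Agent.Helper578.JD.RE.and
          (Pool.Agent.Helper578.JD.RE.lt Computable.snd (Computable.snd.comp Computable.fst)) ?_
        exact Pool.Agent.Helper578.JD.RE.comp (p := fun q : ℕ × ℕ => Found q.1 q.2)
          h3.to_re (f := fun x : ((List Lt × ℕ) × ℕ) × ℕ => (x.1.1.2, x.2))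
          ((Computable.snd.comp (Computable.fst.comp Computable.fst)).pair Computable.snd)
      · have cs : Computable fun x : (List Lt × ℕ) × ℕ => x.2 + 1 :=
          Computable.succ.comp Computable.snd
        exact Pool.Agent.Helper578.JD.RE.ne
          (cadd.comp (cmul.comp cs (cA.comp Computable.fst)) (cA'.comp Computable.fst))
          (cadd.comp (cmul.comp cs (cB.comp Computable.fst)) (cB'.comp Computable.fst))
    · refine Pool.Agent.Helper578.JD.RE.exN (p := fun (x : List Lt × ℕ) s => Found x.2 s) ?_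
      exact Pool.Agent.Helper578.JD.RE.comp (p := fun q : ℕ × ℕ => Found q.1 q.2)
        h3.to_re (f := fun x : (List Lt × ℕ) × ℕ => (x.1.2, x.2))
        ((Computable.snd.comp Computable.fst).pair Computable.snd)

end Pool.Agent.W803.RF.Wpr
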